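import Pool.Agent.H87.MkS2

namespace Pool.Agent.Results.MP_94cdcb_an.SumNot

open Pool.Agent.H87.MkS Pointwise in
/-- Two hereditarily SCD sets whose Minkowski sum is not SCD. -/
theorem result : ∃ (X : Type) (_ : NormedAddCommGroup X) (_ : NormedSpace ℝ X) (U₁ U₂ : Set X),
    CompleteSpace X ∧ HSCD U₁ ∧ HSCD U₂ ∧ ¬ SCD (U₁ + U₂) :=
  ⟨Y × Y, inferInstance, inferInstance, Set.range pU, Set.range pV, inferInstance, hU, hV, main⟩

end Pool.Agent.Results.MP_94cdcb_an.SumNot
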